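import Pool.Agent.H942R3.KK.Stmts3

/-! KK project, task Mader (helper766): edge connectivity of vertex-transitive graphs. -/

set_option autoImplicit false

namespace Pool.Agent.H942R3.KK

open Finset

namespace MaderAux

open Classical in
/-- ordered boundary pairs -/
noncomputable def bp {V : Type} [Fintype V] (H : SimpleGraph V) (S : Finset V) : Finset (V × V) :=
  univ.filter (fun e => e.1 ∈ S ∧ e.2 ∉ S ∧ H.Adj e.1 e.2)

noncomputable def B {V : Type} [Fintype V] (H : SimpleGraph V) (S : Finset V) : ℕ := (bp H S).card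

variable {V : Type} [Fintype V] (H : SimpleGraph V)

theorem bd_eq (S : Finset V) : bd H (S : Set V) = B H S := by
  classical
  unfold bd B
  rw [← Set.ncard_coe_finset]
  congr 1
  ext e
  simp [bp]

open Classical in
theorem B_eq_sum (S : Finset V) : B H S = ∑ e : V × V,
    (if e.1 ∈ S ∧ e.2 ∉ S ∧ H.Adj e.1 e.2 then 1 else 0) := by
  unfold B bp
  rw [card_filter]

open Classical in
theorem B_sub (S T : Finset V) : B H (S ∩ T) + B H (S ∪ T) ≤ B H S + B H T := by
  simp only [B_eq_sum]
  rw [← sum_add_distrib, ← sum_add_distrib]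
  apply sum_le_sum
  intro e _
  by_cases h1 : e.1 ∈ S <;> by_cases h2 : e.1 ∈ T <;> by_cases h3 : e.2 ∈ S <;>
    by_cases h4 : e.2 ∈ T <;> by_cases h5 : H.Adj e.1 e.2 <;> simp [h1, h2, h3, h4, h5]

open Classical in
theorem B_compl (S : Finset V) : B H Sᶜ = B H S := by
  unfold B
  apply card_bij (fun e _ => (e.2, e.1))
  · intro e he
    simp only [bp, mem_filter, mem_univ, true_and, mem_compl, not_not] at he ⊢
    exact ⟨he.2.1, he.1, he.2.2.symm⟩
  · intro a _ b _ h
    simp only [Prod.mk.injEq] at h
    exact Prod.ext h.2 h.1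
  · intro e he
    simp only [bp, mem_filter, mem_univ, true_and] at he
    refine ⟨(e.2, e.1), ?_, rfl⟩
    simp only [bp, mem_filter, mem_univ, true_and, mem_compl, not_not]
    exact ⟨he.2.1, he.1, he.2.2.symm⟩

open Classical in
theorem mem_im (φ : H ≃g H) (S : Finset V) (x : V) : φ x ∈ S.image φ ↔ x ∈ S := by
  rw [mem_image]
  constructor
  · rintro ⟨y, hy, h⟩
    rwa [← φ.injective h]
  · intro h
    exact ⟨x, h, rfl⟩

open Classical in
theorem B_image (φ : H ≃g H) (S : Finset V) : B H (S.image φ) = B H S := by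
  unfold B
  symm
  apply card_bij (fun e _ => (φ e.1, φ e.2))
  · intro e he
    simp only [bp, mem_filter, mem_univ, true_and] at he ⊢
    rw [mem_im, mem_im, φ.map_adj_iff]
    exact he
  · intro a _ b _ h
    simp only [Prod.mk.injEq] at h
    exact Prod.ext (φ.injective h.1) (φ.injective h.2)
  · intro e he
    simp only [bp, mem_filter, mem_univ, true_and] at he
    obtain ⟨x, hx⟩ := φ.surjective e.1
    obtain ⟨y, hy⟩ := φ.surjective e.2
    rw [← hx, ← hy, mem_im, mem_im, φ.map_adj_iff] at he
    refine ⟨(x, y), ?_, ?_⟩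
    · simp only [bp, mem_filter, mem_univ, true_and]
      exact he
    · exact Prod.ext hx hy

theorem B_pos (hc : H.Connected) {S : Finset V} (h1 : S.Nonempty) (h2 : S ≠ univ) :
    0 < B H S := by
  classical
  obtain ⟨x, hx⟩ := h1
  obtain ⟨y, hy⟩ : ∃ y, y ∉ S := by
    by_contra hcon
    push Not at hcon
    exact h2 (eq_univ_iff_forall.2 hcon)
  obtain ⟨p⟩ := hc.preconnected x y
  obtain ⟨e, _, he1, he2⟩ := p.exists_boundary_dart (S : Set V) hx hy
  unfold B
  rw [card_pos]
  refine ⟨(e.fst, e.snd), ?_⟩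
  simp only [bp, mem_filter, mem_univ, true_and]
  exact ⟨he1, he2, e.adj⟩

/-- number of neighbours outside `A` -/
noncomputable def out (A : Finset V) (x : V) : ℕ := by
  classical exact (univ.filter (fun z => z ∉ A ∧ H.Adj x z)).card

theorem B_out (A : Finset V) : B H A = ∑ x ∈ A, out H A x := by
  classical
  unfold B
  have h : bp H A = A.biUnion (fun x => (univ.filter (fun z => z ∉ A ∧ H.Adj x z)).image
      (fun z => (x, z))) := by
    ext e
    simp only [bp, mem_filter, mem_univ, true_and, mem_biUnion, mem_image]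
    constructor
    · rintro ⟨h1, h2, h3⟩
      exact ⟨e.1, h1, e.2, ⟨h2, h3⟩, rfl⟩
    · rintro ⟨x, hx, z, ⟨hz, ha⟩, rfl⟩
      exact ⟨hx, hz, ha⟩
  rw [h, card_biUnion]
  · apply sum_congr rfl
    intro x _
    unfold out
    rw [card_image_of_injective]
    intro a b hab
    exact (Prod.mk.inj hab).2
  · intro x _ y _ hxy
    rw [Function.onFun, disjoint_left]
    intro e h1 h2
    rw [mem_image] at h1 h2
    obtain ⟨_, _, rfl⟩ := h1
    obtain ⟨_, _, h⟩ := h2
    exact hxy (Prod.mk.inj h).1.symm

theorem out_eq (A : Finset V) (φ : H ≃g H)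
    (hφ : ∀ z, φ z ∈ A ↔ z ∈ A) (x : V) : out H A (φ x) = out H A x := by
  classical
  unfold out
  symm
  apply card_bij (fun z _ => φ z)
  · intro z hz
    simp only [mem_filter, mem_univ, true_and] at hz ⊢
    rw [hφ, φ.map_adj_iff]
    exact hz
  · intro a _ b _ h
    exact φ.injective h
  · intro z hz
    simp only [mem_filter, mem_univ, true_and] at hz
    obtain ⟨y, rfl⟩ := φ.surjective z
    rw [hφ, φ.map_adj_iff] at hz
    exact ⟨y, by simpa using hz, rfl⟩

theorem deg_le (d : ℕ) (hd : ∀ x, (H.neighborSet x).ncard = d) (A : Finset V) {x : V}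
    (hx : x ∈ A) : d + 1 ≤ A.card + out H A x := by
  classical
  have h1 : d = (univ.filter (fun z => H.Adj x z)).card := by
    rw [← hd x, ← Set.ncard_coe_finset]
    congr 1
    ext z
    simp
  have h2 : (univ.filter (fun z => H.Adj x z)) ⊆
      (A.erase x) ∪ (univ.filter (fun z => z ∉ A ∧ H.Adj x z)) := by
    intro z hz
    simp only [mem_filter, mem_univ, true_and] at hz
    rw [mem_union, mem_erase, mem_filter]
    by_cases hzA : z ∈ A
    · left
      exact ⟨fun h => H.loopless.irrefl x (h ▸ hz), hzA⟩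
    · right
      exact ⟨mem_univ _, hzA, hz⟩
  have h3 := (card_le_card h2).trans (card_union_le _ _)
  rw [← h1, card_erase_of_mem hx] at h3
  have h4 : 0 < A.card := card_pos.2 ⟨x, hx⟩
  unfold out
  omega

end MaderAux

open MaderAux

theorem taskMader : TaskMader := by
  classical
  intro V _ H d hc hvt hd S hS1 hS2
  set S' : Finset V := S.toFinset with hS'
  have hSS : (S' : Set V) = S := by simp [hS']
  rw [← hSS, bd_eq]
  have hS'1 : S'.Nonempty := by
    obtain ⟨x, hx⟩ := hS1
    exact ⟨x, by simpa [hS'] using hx⟩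
  have hS'2 : S' ≠ univ := by
    intro h
    apply hS2
    rw [← hSS, h, coe_univ]
  set n := Fintype.card V with hn
  set fam : Finset (Finset V) := univ.filter (fun T => T.Nonempty ∧ T ≠ univ) with hfam
  obtain ⟨A, hA, hmin⟩ := exists_min_image fam (fun T => B H T * (n + 1) + T.card)
    ⟨S', by simp only [hfam, mem_filter, mem_univ, true_and]; exact ⟨hS'1, hS'2⟩⟩
  simp only [hfam, mem_filter, mem_univ, true_and] at hA hmin
  obtain ⟨hA1, hA2⟩ := hA
  have hcardle : ∀ T : Finset V, T.card ≤ n := fun T => card_le_univ T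
  have hmin1 : ∀ T : Finset V, T.Nonempty → T ≠ univ → B H A ≤ B H T := by
    intro T h1 h2
    by_contra hcon
    push Not at hcon
    have h3 := hmin T ⟨h1, h2⟩
    have h4 := hcardle T
    have h5 : (B H T + 1) * (n + 1) ≤ B H A * (n + 1) := Nat.mul_le_mul_right _ hcon
    nlinarith
  have hmin2 : ∀ T : Finset V, T.Nonempty → T ≠ univ → B H T = B H A → A.card ≤ T.card := by
    intro T h1 h2 h3
    have h4 := hmin T ⟨h1, h2⟩
    rw [h3] at h4
    omega
  -- size
  have hAc1 : (Aᶜ).Nonempty := by
    by_contra h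
    rw [not_nonempty_iff_eq_empty, compl_eq_empty_iff] at h
    exact hA2 h
  have hAc2 : Aᶜ ≠ univ := by
    intro h
    obtain ⟨x, hx⟩ := hA1
    have : x ∈ Aᶜ := by rw [h]; exact mem_univ _
    exact (mem_compl.1 this) hx
  have h2A : 2 * A.card ≤ n := by
    have h := hmin2 Aᶜ hAc1 hAc2 (B_compl H A)
    rw [card_compl] at h
    have := hcardle A
    omega
  have hAcard : 0 < A.card := card_pos.2 hA1
  -- atoms are blocks
  have hblock : ∀ φ : H ≃g H, (A ∩ A.image φ).Nonempty → A.image φ = A := by
    intro φ hne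
    by_contra hneq
    have hcard : (A.image φ).card = A.card := card_image_of_injective _ φ.injective
    have hlt : (A ∩ A.image φ).card < A.card := by
      apply card_lt_card
      rw [Finset.ssubset_iff_subset_ne]
      refine ⟨inter_subset_left, ?_⟩
      intro h
      apply hneq
      have hsub : A ⊆ A.image φ := by
        have h' : A ∩ A.image φ ⊆ A.image φ := inter_subset_right
        rw [h] at h'
        exact h'
      exact (eq_of_subset_of_card_le hsub hcard.le).symm
    have hneu : A ∩ A.image φ ≠ univ := by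
      intro h
      rw [h, card_univ] at hlt
      have := hcardle A
      omega
    have h1 := hmin1 _ hne hneu
    have h2 : B H A < B H (A ∩ A.image φ) := by
      rcases h1.lt_or_eq with h | h
      · exact h
      · have := hmin2 _ hne hneu h.symm
        omega
    have h3 := B_sub H A (A.image φ)
    rw [B_image] at h3
    have h4 : A ∪ A.image φ = univ := by
      by_contra hu
      have := hmin1 (A ∪ A.image φ) (hA1.mono subset_union_left) hu
      omega
    have h5 := card_union_add_card_inter A (A.image φ)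
    rw [h4, card_univ, hcard] at h5
    have h6 : 0 < (A ∩ A.image φ).card := card_pos.2 hne
    omega
  obtain ⟨x0, hx0⟩ := hA1
  have hout : ∀ y ∈ A, out H A y = out H A x0 := by
    intro y hy
    obtain ⟨φ, hφ⟩ := hvt x0 y
    have hb := hblock φ ⟨y, by
      rw [mem_inter]
      refine ⟨hy, ?_⟩
      rw [← hφ, mem_im]
      exact hx0⟩
    rw [← hφ]
    apply out_eq
    intro z
    conv_lhs => rw [← hb]
    exact mem_im H φ A z
  have hBA : B H A = A.card * out H A x0 := by
    rw [B_out, sum_congr rfl hout, sum_const, smul_eq_mul]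
  have hpos := B_pos H hc ⟨x0, hx0⟩ hA2
  have ho : 0 < out H A x0 := by
    rcases Nat.eq_zero_or_pos (out H A x0) with h | h
    · rw [hBA, h, mul_zero] at hpos
      exact absurd hpos (lt_irrefl _)
    · exact h
  have hdeg := deg_le H d hd A hx0
  have hle := hmin1 S' hS'1 hS'2
  rw [hBA] at hle
  refine le_trans ?_ hle
  obtain ⟨a, ha⟩ : ∃ a, A.card = a + 1 := ⟨A.card - 1, by omega⟩
  obtain ⟨o, ho'⟩ : ∃ o, out H A x0 = o + 1 := ⟨out H A x0 - 1, by omega⟩
  rw [ha, ho'] at hdeg ⊢
  nlinarith [Nat.zero_le (a * o)]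

end Pool.Agent.H942R3.KK
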